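import Pool.Agent.DWH.Final

/-!
# Double wheels as induced minors of claw-free graphs of large tree-independence number

The case `d ≤ 3` of Q1 of MP_778ed5_co with `f(k, d) = 360 k²`: every finite `K_{1,d}`-free graph
`G`, `d ≤ 3`, with `α-tw(G) ≥ 360 k²` has the `k`-double wheel `C_k □ P_2` as an induced minor.
The definitions `StarFree`, `TreeDec`, `AlphaLE`, `alphaTw`, `IsInducedMinor` are in
`Pool/Agent/DWH/Defs.lean`; `cycleGraph`, `pathGraph` and the box product `□` are Mathlib's.
-/

set_option autoImplicit false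

namespace Pool.Agent.Results.MP_778ed5_co.ClawFreeDoubleWheel

open SimpleGraph DWH

/-- For `k ≥ 3` and `d ≤ 3`, every finite `K_{1,d}`-free graph of tree-independence number at least
`360 k²` has the `k`-double wheel as an induced minor. -/
theorem result (k d : ℕ) (hk : 3 ≤ k) (hd : d ≤ 3) (V : Type) [Finite V] (G : SimpleGraph V)
    (hG : StarFree d G) (hα : 360 * k ^ 2 ≤ alphaTw G) :
    IsInducedMinor (cycleGraph k □ pathGraph 2) G := by
  obtain ⟨n, rfl⟩ : ∃ n, k = n + 3 := ⟨k - 3, by omega⟩
  exact main_claw G (clawFree_of_starFree (starFree_mono hd hG)) n hα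

end Pool.Agent.Results.MP_778ed5_co.ClawFreeDoubleWheel
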