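import Pool.Agent.DWR.QOne

/-!
# Double wheels as induced minors of star-free graphs of large tree-independence number

Full positive answer to Q1 of MP_778ed5_co: there is a function `f` such that for all `k ≥ 3` and `d ≥ 1` every
finite `K_{1,d}`-free graph `G` with `α-tw(G) ≥ f(k, d)` has the `k`-double wheel `C_k □ P_2` as an induced minor.
The definitions `StarFree`, `TreeDec`, `AlphaLE`, `alphaTw`, `IsInducedMinor` are in
`Pool/Agent/DWH/Defs.lean`; `cycleGraph`, `pathGraph` and the box product `□` are Mathlib's.
-/

set_option autoImplicit false

namespace Pool.Agent.Results.MP_778ed5_co.DoubleWheel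

open SimpleGraph DWH

/-- There is a function `f` such that for all `k ≥ 3` and all `d` every finite `K_{1,d}`-free graph of
tree-independence number at least `f k d` has the `k`-double wheel as an induced minor. -/
theorem result : ∃ f : ℕ → ℕ → ℕ, ∀ k d : ℕ, 3 ≤ k → ∀ (V : Type) [Finite V] (G : SimpleGraph V),
    StarFree d G → f k d ≤ alphaTw G → IsInducedMinor (cycleGraph k □ pathGraph 2) G :=
  DWR.q_one

end Pool.Agent.Results.MP_778ed5_co.DoubleWheel
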